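import Pool.Agent.KS6_17.SAD.Main

/-!
In every dimension `k ≥ 2` and every degree `d ≥ 2` the holomorphic self-maps of `P^k` of degree
`d` all of whose fixed points are saddles contain a nonempty open set of the space of all
`(k + 1)`-tuples of homogeneous polynomials of degree `d`.

The definitions (`HolMap`, `HolMap.map`, `HolMap.inChart`, `ofPlane`) are those of the module
`Pool.Graph.R_seed8.Results.MP_10bb55_an.AllDimensions`.
-/

set_option autoImplicit false

open scoped LinearAlgebra.Projectivization
open Pool.Agent.Results.MP_10bb55_an.AllDimensions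

namespace Pool.Agent.Results.MP_10bb55_an.OpenSetOfSaddles

/-- **Main theorem.** For all `k, d ≥ 2` there are a holomorphic self-map `f` of `P^k` of degree
`d` and an `ε > 0` such that every `(k + 1)`-tuple `G` of homogeneous polynomials of degree `d`
whose coefficients differ by less than `ε` from those of `f` gives a holomorphic self-map `g` of
`P^k` of degree `d` all of whose fixed points are saddles: read in any standard affine chart
containing the fixed point, the derivative has an eigenvalue of modulus `< 1` and an eigenvalue of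
modulus `> 1`. In particular no map in this open set has a repelling fixed point. -/
theorem result : ∀ k d : ℕ, 2 ≤ k → 2 ≤ d → ∃ (f : HolMap k d) (ε : ℝ), 0 < ε ∧
    ∀ G : Fin (k + 1) → MvPolynomial (Fin (k + 1)) ℂ, (∀ i, (G i).IsHomogeneous d) →
      (∀ i s, ‖(G i).coeff s - (f.F i).coeff s‖ < ε) →
      ∃ g : HolMap k d, g.F = G ∧ ∀ p : ℙ ℂ (Fin (k + 1) → ℂ), g.map p = p →
        ∀ i : Fin (k + 1), p.rep i ≠ 0 →
        ∃ A : (Fin k → ℂ) →L[ℂ] (Fin k → ℂ), HasFDerivAt (g.inChart i) A (ofPlane i p) ∧
          ∃ μ₁ μ₂ : ℂ, Module.End.HasEigenvalue (A : (Fin k → ℂ) →ₗ[ℂ] (Fin k → ℂ)) μ₁ ∧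
            Module.End.HasEigenvalue (A : (Fin k → ℂ) →ₗ[ℂ] (Fin k → ℂ)) μ₂ ∧
            ‖μ₁‖ < 1 ∧ 1 < ‖μ₂‖ :=
  Pool.Agent.KS6_17.SAD.main

end Pool.Agent.Results.MP_10bb55_an.OpenSetOfSaddles
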